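import Mathlib
import Pool.Agent.H658R3.ZM7

/-!
Countably compact minimal groups with property `Z_m` have property `Z`.
-/

set_option autoImplicit false

open Filter Topology

namespace Pool.Agent.Results.MP_37cedb_gt.CountablyCompactZm

/-- Let `G` be a Hausdorff topological group which is countably compact (every countable open
cover has a finite subcover) and minimal (every continuous group isomorphism onto a Hausdorff
topological group has continuous inverse).  If every closed zero-dimensional metrizable subgroup
of `G` is discrete (property `Z_m`), then every closed zero-dimensional subgroup of `G` is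
discrete (property `Z`). -/
theorem result :
    ∀ (G : Type) [Group G] [TopologicalSpace G] [IsTopologicalGroup G] [T2Space G],
      (∀ U : ℕ → Set G, (∀ n, IsOpen (U n)) → (⋃ n, U n) = Set.univ →
          ∃ s : Finset ℕ, (⋃ n ∈ s, U n) = Set.univ) →
      (∀ (H : Type) [Group H] [TopologicalSpace H] [IsTopologicalGroup H] [T2Space H]
          (f : G ≃* H), Continuous f → Continuous f.symm) →
      (∀ S : Subgroup G, IsClosed (S : Set G) →
          TopologicalSpace.IsTopologicalBasis {s : Set S | IsClopen s} →
          TopologicalSpace.MetrizableSpace S → DiscreteTopology S) →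
      ∀ S : Subgroup G, IsClosed (S : Set G) →
          TopologicalSpace.IsTopologicalBasis {s : Set S | IsClopen s} → DiscreteTopology S := by
  intro G _ _ _ _ hcc hmin hZm S hS hzd
  have hP := H658.ZM.precompact_of_countablyCompact G hcc
  have hm := H658.ZM.minimal_of G hmin
  have hnb : ¬ H658.ZM.Bad G := by
    rintro ⟨H, h1, h2, h3, h4⟩
    exact h4 (hZm H h1 h2 h3)
  have hmet := H658.ZM.metrizable_of_not_bad hP hm hnb
  exact hZm S hS hzd IsEmbedding.subtypeVal.metrizableSpace

end Pool.Agent.Results.MP_37cedb_gt.CountablyCompactZm
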